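import Mathlib

/-!
Definitions for infinite binary words: factors, Sturmian words, the map `S`, palindromic counting.
-/

namespace Pool.Agent.LibSturmian

/-- The factor `u_i u_{i+1} ... u_{i+n-1}` of length `n` of the infinite word `u`. -/
def factor (u : ℕ → ZMod 2) (i n : ℕ) : List (ZMod 2) := List.ofFn (fun j : Fin n => u (i + j))

/-- The set of factors of `u` of length `n`. -/
def factorSet (u : ℕ → ZMod 2) (n : ℕ) : Set (List (ZMod 2)) := {w | ∃ i, w = factor u i n}

/-- A Sturmian word is an infinite binary word with exactly `n+1` distinct factors of length `n`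
for every `n ≥ 0`. -/
def IsSturmian (u : ℕ → ZMod 2) : Prop := ∀ n : ℕ, (factorSet u n).ncard = n + 1

/-- The map `S(u) = v_1 v_2 v_3 ...` with `v_i = u_{i-1} + u_i mod 2` (re-indexed from `0`). -/
def S (u : ℕ → ZMod 2) : ℕ → ZMod 2 := fun i => u i + u (i + 1)

/-- The number of distinct palindromic factors of a finite word (the empty word included). -/
noncomputable def palCount (w : List (ZMod 2)) : ℕ :=
  {p : List (ZMod 2) | p <:+: w ∧ p.reverse = p}.ncard

end Pool.Agent.LibSturmian
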