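import Pool.Agent.LibSturmian.Defs

/-!
Codings of irrational rotations are Sturmian.
-/

open Set Filter Topology

namespace Pool.Agent.LibSturmian

/-- density of natural multiples of an irrational modulo integers -/
lemma dense_mul {a : ℝ} (ha : Irrational a) {x y : ℝ} (hxy : x < y) :
    ∃ n : ℕ, ∃ k : ℤ, x < n * a - k ∧ n * a - k < y := by
  have h1 : DenseRange (· • (a : AddCircle (1:ℝ)) : ℤ → AddCircle (1:ℝ)) := by
    rw [AddCircle.denseRange_zsmul_coe_iff]; simpa using ha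
  have : Fact ((0:ℝ) < 1) := ⟨zero_lt_one⟩
  have h2 : DenseRange (· • (a : AddCircle (1:ℝ)) : ℕ → AddCircle (1:ℝ)) :=
    denseRange_zsmul_iff_nsmul.mp h1
  have hopen : IsOpen ((fun r : ℝ => (r : AddCircle (1:ℝ))) '' Ioo x y) :=
    QuotientAddGroup.isOpenMap_coe _ isOpen_Ioo
  have hne : ((fun r : ℝ => (r : AddCircle (1:ℝ))) '' Ioo x y).Nonempty :=
    (nonempty_Ioo.mpr hxy).image _
  obtain ⟨n, hn⟩ := h2.exists_mem_open hopen hne
  obtain ⟨r, hr, hrn⟩ := hn
  simp only at hrn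
  rw [← AddCircle.coe_nsmul, nsmul_eq_mul] at hrn
  have h3 := (QuotientAddGroup.eq_iff_sub_mem).mp hrn.symm
  rw [AddSubgroup.mem_zmultiples_iff] at h3
  obtain ⟨k, hk⟩ := h3
  refine ⟨n, k, ?_⟩
  have : (n:ℝ) * a - k = r := by
    simp at hk; linarith
  rw [this]; exact hr

/-- coding of rotation -/
noncomputable def mech (a b : ℝ) (n : ℕ) : ZMod 2 := ((⌊((n:ℝ) + 1) * a + b⌋ - ⌊(n:ℝ) * a + b⌋ : ℤ) : ZMod 2)

lemma factorSet_finite (u : ℕ → ZMod 2) (n : ℕ) : (factorSet u n).Finite := by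
  have : factorSet u n ⊆ Set.range (fun f : Fin n → ZMod 2 => List.ofFn f) := by
    rintro w ⟨i, rfl⟩
    exact ⟨fun j => u (i + j), rfl⟩
  exact (Set.finite_range _).subset this

/-- partial sums -/
noncomputable def dd (a b : ℝ) (i j : ℕ) : ℤ := ⌊((i:ℝ) + j) * a + b⌋ - ⌊(i:ℝ) * a + b⌋

lemma dd_eq (a b : ℝ) (i j : ℕ) : dd a b i j = ⌊Int.fract ((i:ℝ) * a + b) + j * a⌋ := by
  unfold dd
  have : Int.fract ((i:ℝ) * a + b) + j * a = ((i:ℝ) + j) * a + b - (⌊(i:ℝ) * a + b⌋ : ℤ) := by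
    rw [Int.fract]; ring
  rw [this, Int.floor_sub_intCast]

lemma mech_dd (a b : ℝ) (i j : ℕ) : mech a b (i + j) = ((dd a b i (j+1) - dd a b i j : ℤ) : ZMod 2) := by
  unfold mech dd
  push_cast
  ring_nf

lemma upper (a b : ℝ) (n : ℕ) : (factorSet (mech a b) n).ncard ≤ n + 1 := by
  classical
  -- the statistic
  let S : ℕ → ℤ := fun i => ∑ j ∈ Finset.range (n+1), (dd a b i j - ⌊(j:ℝ) * a⌋)
  have hmono : ∀ i i' : ℕ, Int.fract ((i:ℝ) * a + b) ≤ Int.fract ((i':ℝ) * a + b) → ∀ j, dd a b i j ≤ dd a b i' j := by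
    intro i i' h j
    rw [dd_eq, dd_eq]
    apply Int.floor_le_floor
    linarith
  have hrange : ∀ i j, 0 ≤ dd a b i j - ⌊(j:ℝ) * a⌋ ∧ dd a b i j - ⌊(j:ℝ) * a⌋ ≤ 1 := by
    intro i j
    rw [dd_eq]
    have h0 := Int.fract_nonneg ((i:ℝ) * a + b)
    have h1 := Int.fract_lt_one ((i:ℝ) * a + b)
    constructor
    · have : ⌊(j:ℝ) * a⌋ ≤ ⌊Int.fract ((i:ℝ) * a + b) + j * a⌋ := Int.floor_le_floor (by linarith)
      linarith
    · have : ⌊Int.fract ((i:ℝ) * a + b) + j * a⌋ ≤ ⌊(j:ℝ) * a + 1⌋ := Int.floor_le_floor (by linarith)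
      rw [Int.floor_add_one] at this
      linarith
  have hS0 : ∀ i, 0 ≤ S i ∧ S i ≤ n := by
    intro i
    constructor
    · exact Finset.sum_nonneg (fun j _ => (hrange i j).1)
    · have h0 : dd a b i 0 - ⌊((0:ℕ):ℝ) * a⌋ = 0 := by
        simp [dd]
      have : S i = ∑ j ∈ Finset.range n, (dd a b i (j+1) - ⌊((j+1:ℕ):ℝ) * a⌋) := by
        show ∑ j ∈ Finset.range (n+1), (dd a b i j - ⌊(j:ℝ) * a⌋) = _
        rw [Finset.sum_range_succ', h0, add_zero]
      rw [this]
      calc ∑ j ∈ Finset.range n, (dd a b i (j+1) - ⌊((j+1:ℕ):ℝ) * a⌋) ≤ ∑ j ∈ Finset.range n, (1:ℤ) :=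
            Finset.sum_le_sum (fun j _ => (hrange i (j+1)).2)
        _ = n := by simp
  have hkey : ∀ i i', S i = S i' → factor (mech a b) i n = factor (mech a b) i' n := by
    have haux : ∀ i i' : ℕ, Int.fract ((i:ℝ) * a + b) ≤ Int.fract ((i':ℝ) * a + b) → S i = S i' →
        factor (mech a b) i n = factor (mech a b) i' n := by
      intro i i' h hS
      have h1 : ∀ j ∈ Finset.range (n+1), dd a b i j - ⌊(j:ℝ) * a⌋ = dd a b i' j - ⌊(j:ℝ) * a⌋ := by
        apply (Finset.sum_eq_sum_iff_of_le _).mp hS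
        intro j _
        have := hmono i i' h j
        linarith
      unfold factor
      congr 1
      funext j
      rw [mech_dd, mech_dd]
      have e1 := h1 j (Finset.mem_range.mpr (by have := j.2; omega))
      have e2 := h1 (j+1) (Finset.mem_range.mpr (by have := j.2; omega))
      have e3 : dd a b i j = dd a b i' j := by linarith
      have e4 : dd a b i (j+1) = dd a b i' (j+1) := by linarith
      rw [e3, e4]
    intro i i' hS
    rcases le_total (Int.fract ((i:ℝ) * a + b)) (Int.fract ((i':ℝ) * a + b)) with h | h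
    · exact haux i i' h hS
    · exact (haux i' i h hS.symm).symm
  let g : ℤ → List (ZMod 2) := fun s => if h : ∃ i, S i = s then factor (mech a b) h.choose n else []
  have hsub : factorSet (mech a b) n ⊆ g '' ((Finset.Icc (0:ℤ) n : Finset ℤ) : Set ℤ) := by
    rintro w ⟨i, rfl⟩
    refine ⟨S i, ?_, ?_⟩
    · rw [Finset.coe_Icc]; exact hS0 i
    · have hex : ∃ i', S i' = S i := ⟨i, rfl⟩
      show (if h : ∃ i', S i' = S i then factor (mech a b) h.choose n else []) = _
      rw [dif_pos hex]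
      exact hkey _ _ hex.choose_spec
  calc (factorSet (mech a b) n).ncard ≤ (g '' ((Finset.Icc (0:ℤ) n : Finset ℤ) : Set ℤ)).ncard :=
        Set.ncard_le_ncard hsub ((Finset.finite_toSet _).image _)
    _ ≤ ((Finset.Icc (0:ℤ) n : Finset ℤ) : Set ℤ).ncard := Set.ncard_image_le (Finset.finite_toSet _)
    _ = n + 1 := by rw [Set.ncard_coe_finset]; simp

lemma floor_eventually {y : ℝ} (hy : ∀ m : ℤ, y ≠ m) : ∀ᶠ x in 𝓝 y, ⌊x⌋ = ⌊y⌋ := by
  have h1 : (⌊y⌋ : ℝ) < y := lt_of_le_of_ne (Int.floor_le y) (fun h => hy _ h.symm)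
  have h2 : y < ⌊y⌋ + 1 := Int.lt_floor_add_one y
  filter_upwards [Ioo_mem_nhds h1 h2] with x hx
  rw [Int.floor_eq_iff]
  exact ⟨hx.1.le, hx.2⟩

lemma exists_special {a : ℝ} (ha : Irrational a) (b : ℝ) (n : ℕ) :
    ∃ i i', factor (mech a b) i n = factor (mech a b) i' n ∧
      factor (mech a b) i (n+1) ≠ factor (mech a b) i' (n+1) := by
  set t : ℝ := -((n:ℝ) + 1) * a with ht
  have hirr : ∀ j : ℕ, j ≤ n → ∀ m : ℤ, t + j * a ≠ m := by
    intro j hj m h
    have h1 : t + j * a = ((j:ℤ) - (n + 1 : ℤ) : ℤ) * a := by push_cast; rw [ht]; ring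
    have h2 : ((j:ℤ) - (n + 1 : ℤ)) ≠ 0 := by omega
    have h3 : Irrational ((((j:ℤ) - (n + 1 : ℤ) : ℤ) : ℝ) * a) := ha.intCast_mul h2
    rw [← h1, h] at h3
    exact h3 ⟨m, by simp⟩
  have hev : ∀ᶠ x in 𝓝 t, ∀ j ∈ Finset.range (n+1), ⌊x + (j:ℝ) * a⌋ = ⌊t + (j:ℝ) * a⌋ := by
    rw [Filter.eventually_all_finset]
    intro j hj
    have hj' : j ≤ n := by rw [Finset.mem_range] at hj; omega
    have hcont : Tendsto (fun x : ℝ => x + (j:ℝ) * a) (𝓝 t) (𝓝 (t + (j:ℝ) * a)) :=
      (continuous_id.add continuous_const).tendsto t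
    exact hcont.eventually (floor_eventually (hirr j hj'))
  obtain ⟨δ, hδ, hball⟩ := Metric.eventually_nhds_iff.mp hev
  set ε := min δ 1 with hε
  have hεpos : 0 < ε := lt_min hδ one_pos
  have hεδ : ε ≤ δ := min_le_left _ _
  have hε1 : ε ≤ 1 := min_le_right _ _
  obtain ⟨i, k, hi1, hi2⟩ := dense_mul ha (show t - ε - b < t - b by linarith)
  obtain ⟨i', k', hi1', hi2'⟩ := dense_mul ha (show t - b < t + ε - b by linarith)
  set x : ℝ := i * a - k + b with hx
  set x' : ℝ := i' * a - k' + b with hx'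
  have hxlt : t - ε < x ∧ x < t := ⟨by rw [hx]; linarith, by rw [hx]; linarith⟩
  have hx'lt : t < x' ∧ x' < t + ε := ⟨by rw [hx']; linarith, by rw [hx']; linarith⟩
  have hfl : ∀ j ≤ n, ⌊((i:ℝ) + j) * a + b⌋ = ⌊t + (j:ℝ) * a⌋ + k := by
    intro j hj
    have h1 : ((i:ℝ) + j) * a + b = x + j * a + (k:ℤ) := by rw [hx]; ring
    rw [h1, Int.floor_add_intCast]
    congr 1
    apply hball
    · rw [Real.dist_eq, abs_lt]; constructor <;> linarith [hxlt.1, hxlt.2]
    · exact Finset.mem_range.mpr (by omega)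
  have hfl' : ∀ j ≤ n, ⌊((i':ℝ) + j) * a + b⌋ = ⌊t + (j:ℝ) * a⌋ + k' := by
    intro j hj
    have h1 : ((i':ℝ) + j) * a + b = x' + j * a + (k':ℤ) := by rw [hx']; ring
    rw [h1, Int.floor_add_intCast]
    congr 1
    apply hball
    · rw [Real.dist_eq, abs_lt]; constructor <;> linarith [hx'lt.1, hx'lt.2]
    · exact Finset.mem_range.mpr (by omega)
  have hlast : ⌊((i:ℝ) + (n+1:ℕ)) * a + b⌋ = -1 + k := by
    have h1 : ((i:ℝ) + (n+1:ℕ)) * a + b = (x - t) + (k:ℤ) := by rw [hx, ht]; push_cast; ring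
    rw [h1, Int.floor_add_intCast]
    congr 1
    rw [Int.floor_eq_iff]
    push_cast
    constructor <;> linarith [hxlt.1, hxlt.2]
  have hlast' : ⌊((i':ℝ) + (n+1:ℕ)) * a + b⌋ = 0 + k' := by
    have h1 : ((i':ℝ) + (n+1:ℕ)) * a + b = (x' - t) + (k':ℤ) := by rw [hx', ht]; push_cast; ring
    rw [h1, Int.floor_add_intCast]
    congr 1
    rw [Int.floor_eq_iff]
    push_cast
    constructor <;> linarith [hx'lt.1, hx'lt.2]
  have hdd : ∀ j ≤ n, dd a b i j = ⌊t + (j:ℝ) * a⌋ - ⌊t + ((0:ℕ):ℝ) * a⌋ := by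
    intro j hj
    unfold dd
    have h0 := hfl 0 (Nat.zero_le _)
    rw [Nat.cast_zero, add_zero] at h0
    rw [hfl j hj, h0]; simp
  have hdd' : ∀ j ≤ n, dd a b i' j = ⌊t + (j:ℝ) * a⌋ - ⌊t + ((0:ℕ):ℝ) * a⌋ := by
    intro j hj
    unfold dd
    have h0 := hfl' 0 (Nat.zero_le _)
    rw [Nat.cast_zero, add_zero] at h0
    rw [hfl' j hj, h0]; simp
  have hddl : dd a b i (n+1) = -1 - ⌊t + ((0:ℕ):ℝ) * a⌋ := by
    unfold dd
    have h0 := hfl 0 (Nat.zero_le _)
    rw [Nat.cast_zero, add_zero] at h0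
    rw [hlast, h0]; simp
  have hddl' : dd a b i' (n+1) = 0 - ⌊t + ((0:ℕ):ℝ) * a⌋ := by
    unfold dd
    have h0 := hfl' 0 (Nat.zero_le _)
    rw [Nat.cast_zero, add_zero] at h0
    rw [hlast', h0]; simp
  refine ⟨i, i', ?_, ?_⟩
  · unfold factor
    congr 1
    funext j
    rw [mech_dd, mech_dd, hdd _ (by have := j.2; omega), hdd _ (by have := j.2; omega),
      hdd' _ (by have := j.2; omega), hdd' _ (by have := j.2; omega)]
  · intro h
    unfold factor at h
    have h1 := List.ofFn_injective h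
    have h2 := congrFun h1 ⟨n, by omega⟩
    simp only at h2
    rw [mech_dd, mech_dd, hddl, hddl', hdd n le_rfl, hdd' n le_rfl] at h2
    have h3 : ((1:ℤ) : ZMod 2) = 0 := by
      push_cast at h2 ⊢
      linear_combination -h2
    exact absurd h3 (by decide)

theorem mech_sturmian {a : ℝ} (ha : Irrational a) (b : ℝ) : IsSturmian (mech a b) := by
  intro n
  apply le_antisymm (upper a b n)
  induction n with
  | zero =>
    have : (factorSet (mech a b) 0).Nonempty := ⟨_, 0, rfl⟩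
    have := (Set.ncard_pos (factorSet_finite _ _)).mpr this
    omega
  | succ n ih =>
    have himg : factorSet (mech a b) n = List.take n '' factorSet (mech a b) (n+1) := by
      ext w
      constructor
      · rintro ⟨i, rfl⟩
        refine ⟨factor (mech a b) i (n+1), ⟨i, rfl⟩, ?_⟩
        unfold factor
        rw [List.ofFn_succ']
        simp
      · rintro ⟨w', ⟨i, rfl⟩, rfl⟩
        refine ⟨i, ?_⟩
        unfold factor
        rw [List.ofFn_succ']
        simp
    have hle : (factorSet (mech a b) n).ncard ≤ (factorSet (mech a b) (n+1)).ncard := by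
      rw [himg]; exact Set.ncard_image_le (factorSet_finite _ _)
    have hne : (factorSet (mech a b) n).ncard ≠ (factorSet (mech a b) (n+1)).ncard := by
      rw [himg]
      intro h
      have hinj := (Set.ncard_image_iff (factorSet_finite _ _)).mp h
      obtain ⟨i, i', h1, h2⟩ := exists_special ha b n
      apply h2
      apply hinj ⟨i, rfl⟩ ⟨i', rfl⟩
      have htake : ∀ i, List.take n (factor (mech a b) i (n+1)) = factor (mech a b) i n := by
        intro i
        unfold factor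
        rw [List.ofFn_succ']
        simp
      rw [htake, htake, h1]
    omega

end Pool.Agent.LibSturmian
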